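import Mathlib

/-!
# The weighted shift for MP_b9874d_an: the operator and property A
-/

set_option autoImplicit false

namespace Pool.Agent.R805.PropA

open Filter Topology Finset
open scoped ZeroAtInfty

/-- The periods `4 ^ (q + 1)`. -/
def Mq (q : ℕ) : ℤ := 4 ^ (q + 1)

lemma Mq_ge (q : ℕ) : (4 * q + 4 : ℤ) ≤ Mq q := by
  unfold Mq
  induction q with
  | zero => norm_num
  | succ n ih =>
    rw [pow_succ]
    push_cast
    linarith

/-- `n ≤ 2 q - |k - j M_q|` for some `q` and some `j ≥ 1`. -/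
def D (k : ℤ) (n : ℕ) : Prop := ∃ q : ℕ, ∃ j : ℤ, 1 ≤ j ∧ (n : ℤ) + |k - j * Mq q| ≤ 2 * q

lemma D_bound {k : ℤ} {n : ℕ} (h : D k n) : (n : ℤ) ≤ k := by
  obtain ⟨q, j, hj, h⟩ := h
  have h1 := Mq_ge q
  have h2 := neg_le_abs (k - j * Mq q)
  have h3 : Mq q ≤ j * Mq q := by nlinarith
  linarith

lemma bdd (k : ℤ) : BddAbove {n : ℕ | n = 0 ∨ D k n} := by
  refine ⟨k.toNat, ?_⟩
  rintro n (rfl | hn)
  · exact Nat.zero_le _
  · have := D_bound hn
    omega

/-- The exponent of the weights on the negative side. -/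
noncomputable def v (k : ℤ) : ℕ := sSup {n : ℕ | n = 0 ∨ D k n}

lemma v_mem (k : ℤ) : v k = 0 ∨ D k (v k) :=
  Nat.sSup_mem (s := {n : ℕ | n = 0 ∨ D k n}) ⟨0, Or.inl rfl⟩ (bdd k)

lemma le_v {k : ℤ} {n : ℕ} (h : D k n) : n ≤ v k := le_csSup (bdd k) (Or.inr h)

lemma v_le (k : ℤ) : (v k : ℤ) ≤ max k 0 := by
  rcases v_mem k with h | h
  · rw [h]; simp
  · exact (D_bound h).trans (le_max_left _ _)

lemma v_lip (k : ℤ) : v (k - 1) ≤ v k + 1 := by
  rcases v_mem (k - 1) with h | h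
  · omega
  · by_cases h0 : v (k - 1) = 0
    · omega
    · obtain ⟨q, j, hj, h⟩ := h
      have : D k (v (k - 1) - 1) := by
        refine ⟨q, j, hj, ?_⟩
        have h1 : |k - j * Mq q| ≤ |k - 1 - j * Mq q| + 1 := by
          have := abs_add_le (k - 1 - j * Mq q) 1
          rw [abs_one] at this
          have h2 : k - 1 - j * Mq q + 1 = k - j * Mq q := by ring
          rwa [h2] at this
        have h3 : ((v (k - 1) - 1 : ℕ) : ℤ) = (v (k - 1) : ℤ) - 1 := by omega
        rw [h3]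
        linarith
      have := le_v this
      omega

/-- The exponents: `T^k x (n) = 2 ^ (a (n + k) - a n) x (n + k)`. -/
noncomputable def a (n : ℤ) : ℤ := max n 0 + v (-n)

lemma a_of_nonneg {n : ℤ} (hn : 0 ≤ n) : a n = n := by
  have h := v_le (-n)
  unfold a
  rw [max_eq_right (by linarith)] at h
  rw [max_eq_left hn]
  omega

lemma a_of_nonpos {n : ℤ} (hn : n ≤ 0) : a n = v (-n) := by
  unfold a
  rw [max_eq_right hn, zero_add]

lemma a_nonneg (n : ℤ) : 0 ≤ a n := by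
  unfold a
  positivity

lemma a_lip (n : ℤ) : a (n + 1) ≤ a n + 1 := by
  rcases le_or_gt 0 n with h | h
  · rw [a_of_nonneg h, a_of_nonneg (by linarith)]
  · rw [a_of_nonpos h.le, a_of_nonpos (by linarith)]
    have := v_lip (-n)
    have h2 : -(n + 1) = -n - 1 := by ring
    rw [h2]
    exact_mod_cast this

lemma a_le_abs (n : ℤ) : a n ≤ |n| := by
  rcases le_or_gt 0 n with h | h
  · rw [a_of_nonneg h]; exact le_abs_self n
  · rw [a_of_nonpos h.le]
    have := v_le (-n)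
    rw [max_eq_left (by linarith)] at this
    exact this.trans (neg_le_abs n)

/-- The key estimate on the exponents. -/
lemma a_key {d q : ℕ} (hdq : d ≤ q) {r j : ℤ} (hr : |r| ≤ d) (hj : j ≠ 0) :
    a r - a (r + j * Mq q) ≤ d - q := by
  have h1 : a r ≤ d := (a_le_abs r).trans hr
  have hM := Mq_ge q
  have hdq' : (d : ℤ) ≤ q := by exact_mod_cast hdq
  obtain ⟨hr1, hr2⟩ := abs_le.1 hr
  have h2 : (q : ℤ) ≤ a (r + j * Mq q) := by
    rcases lt_or_gt_of_ne hj with h | h
    · have h3 : j * Mq q ≤ - Mq q := by nlinarith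
      rw [a_of_nonpos (by linarith)]
      have : D (-(r + j * Mq q)) q := by
        refine ⟨q, -j, by omega, ?_⟩
        have : -(r + j * Mq q) - -j * Mq q = -r := by ring
        rw [this, abs_neg]
        linarith
      exact_mod_cast le_v this
    · have h3 : Mq q ≤ j * Mq q := by nlinarith
      rw [a_of_nonneg (by linarith)]
      linarith
  linarith

section C0

lemma c0_norm_le {f : C₀(ℤ, ℂ)} {C : ℝ} (hC : 0 ≤ C) (h : ∀ n, ‖f n‖ ≤ C) : ‖f‖ ≤ C := by
  rw [← ZeroAtInftyContinuousMap.norm_toBCF_eq_norm]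
  exact (BoundedContinuousFunction.norm_le hC).2 h

lemma c0_apply_le (f : C₀(ℤ, ℂ)) (n : ℤ) : ‖f n‖ ≤ ‖f‖ := by
  rw [← ZeroAtInftyContinuousMap.norm_toBCF_eq_norm]
  exact f.toBCF.norm_coe_le_norm n

lemma c0_tendsto (f : C₀(ℤ, ℂ)) : Tendsto f cofinite (𝓝 0) := by
  have := f.zero_at_infty'
  rw [cocompact_eq_cofinite] at this
  exact this

lemma norm_two_zpow (k : ℤ) : ‖(2 : ℂ) ^ k‖ = (2 : ℝ) ^ k := by
  rw [norm_zpow]; simp

/-- The element of `c₀(ℤ)` with the given coordinates. -/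
def mk (f : ℤ → ℂ) (hf : Tendsto f cofinite (𝓝 0)) : C₀(ℤ, ℂ) where
  toFun := f
  continuous_toFun := continuous_of_discreteTopology
  zero_at_infty' := by rw [cocompact_eq_cofinite]; exact hf

@[simp] lemma mk_apply (f : ℤ → ℂ) (hf : Tendsto f cofinite (𝓝 0)) (n : ℤ) :
    mk f hf n = f n := rfl

lemma shift_tendsto (x : C₀(ℤ, ℂ)) :
    Tendsto (fun n : ℤ => (2 : ℂ) ^ (a (n + 1) - a n) * x (n + 1)) cofinite (𝓝 0) := by
  have h1 : Tendsto (fun n : ℤ => x (n + 1)) cofinite (𝓝 0) :=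
    (c0_tendsto x).comp (add_left_injective (1 : ℤ)).tendsto_cofinite
  have h2 : Tendsto (fun n : ℤ => 2 * ‖x (n + 1)‖) cofinite (𝓝 0) := by
    have := (h1.norm).const_mul 2
    simpa using this
  refine squeeze_zero_norm (fun n => ?_) h2
  rw [norm_mul, norm_two_zpow]
  gcongr
  calc (2 : ℝ) ^ (a (n + 1) - a n) ≤ 2 ^ (1 : ℤ) :=
        zpow_le_zpow_right₀ (by norm_num) (by have := a_lip n; linarith)
    _ = 2 := by norm_num

/-- The weighted shift as a linear map. -/
noncomputable def Tlin : C₀(ℤ, ℂ) →ₗ[ℂ] C₀(ℤ, ℂ) where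
  toFun x := mk (fun n => (2 : ℂ) ^ (a (n + 1) - a n) * x (n + 1)) (shift_tendsto x)
  map_add' x y := by
    ext n
    simp [mul_add]
  map_smul' c x := by
    ext n
    simp only [mk_apply, ZeroAtInftyContinuousMap.coe_smul, Pi.smul_apply, smul_eq_mul,
      RingHom.id_apply]
    ring

/-- The weighted shift. -/
noncomputable def T : C₀(ℤ, ℂ) →L[ℂ] C₀(ℤ, ℂ) :=
  LinearMap.mkContinuous Tlin 2 (by
    intro x
    refine c0_norm_le (by positivity) fun n => ?_
    change ‖(2 : ℂ) ^ (a (n + 1) - a n) * x (n + 1)‖ ≤ 2 * ‖x‖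
    rw [norm_mul, norm_two_zpow]
    have h1 : (2 : ℝ) ^ (a (n + 1) - a n) ≤ 2 := by
      calc (2 : ℝ) ^ (a (n + 1) - a n) ≤ 2 ^ (1 : ℤ) :=
            zpow_le_zpow_right₀ (by norm_num) (by have := a_lip n; linarith)
        _ = 2 := by norm_num
    exact mul_le_mul h1 (c0_apply_le x _) (norm_nonneg _) (by norm_num))

lemma T_apply (x : C₀(ℤ, ℂ)) (n : ℤ) : T x n = (2 : ℂ) ^ (a (n + 1) - a n) * x (n + 1) := rfl

lemma T_pow_apply (x : C₀(ℤ, ℂ)) (k : ℕ) (n : ℤ) :
    (T ^ k) x n = (2 : ℂ) ^ (a (n + k) - a n) * x (n + k) := by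
  induction k generalizing n with
  | zero => simp
  | succ k ih =>
    rw [pow_succ', mul_apply_eq_comp, T_apply, ih, ← mul_assoc,
      ← zpow_add₀ (by norm_num : (2 : ℂ) ≠ 0)]
    have h1 : n + 1 + (k : ℤ) = n + ((k + 1 : ℕ) : ℤ) := by push_cast; ring
    rw [h1]
    congr 2
    ring

end C0

/-- Upper density of a set of natural numbers. -/
noncomputable def upperDensity (A : Set ℕ) : ℝ :=
  open Classical in limsup (fun N : ℕ => (((Icc 1 N).filter (· ∈ A)).card : ℝ) / N) atTop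

/-- The counting function. -/
noncomputable def cnt (A : Set ℕ) (N : ℕ) : ℕ :=
  open Classical in ((Icc 1 N).filter (· ∈ A)).card

lemma cnt_le (A : Set ℕ) (N : ℕ) : cnt A N ≤ N := by
  classical
  unfold cnt
  exact (card_filter_le _ _).trans (by simp)

lemma ratio_le (A : Set ℕ) (N : ℕ) : (cnt A N : ℝ) / N ≤ 1 := by
  rcases Nat.eq_zero_or_pos N with h | h
  · simp [h]
  · rw [div_le_one (by exact_mod_cast h)]
    exact_mod_cast cnt_le A N

lemma ratio_nonneg (A : Set ℕ) (N : ℕ) : 0 ≤ (cnt A N : ℝ) / N := by positivity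

lemma upperDensity_eq (A : Set ℕ) :
    upperDensity A = limsup (fun N : ℕ => (cnt A N : ℝ) / N) atTop := rfl

lemma exists_freq {A : Set ℕ} (h : 0 < upperDensity A) :
    ∃ c : ℝ, 0 < c ∧ ∃ᶠ N : ℕ in atTop, c * N ≤ cnt A N := by
  rw [upperDensity_eq] at h
  refine ⟨limsup (fun N : ℕ => (cnt A N : ℝ) / N) atTop / 2, half_pos h, ?_⟩
  have hcob : IsCoboundedUnder (· ≤ ·) atTop (fun N : ℕ => (cnt A N : ℝ) / N) :=
    isCoboundedUnder_le_of_le atTop (fun N => ratio_nonneg A N)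
  have := frequently_lt_of_lt_limsup hcob (half_lt_self h)
  refine (this.and_eventually (eventually_gt_atTop 0)).mono ?_
  rintro N ⟨h1, h2⟩
  have h3 : (0 : ℝ) < N := by exact_mod_cast h2
  rw [lt_div_iff₀ h3] at h1
  exact h1.le

lemma upperDensity_pos {A : Set ℕ} {M : ℕ} (hM : 0 < M) (h : ∀ t : ℕ, 1 ≤ t → t * M ∈ A) :
    0 < upperDensity A := by
  classical
  rw [upperDensity_eq]
  have hM' : (0 : ℝ) < M := by exact_mod_cast hM
  have hbd : IsBoundedUnder (· ≤ ·) atTop (fun N : ℕ => (cnt A N : ℝ) / N) :=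
    isBoundedUnder_of ⟨1, fun N => ratio_le A N⟩
  have hf : ∃ᶠ N : ℕ in atTop, (1 : ℝ) / M ≤ (cnt A N : ℝ) / N := by
    rw [frequently_atTop]
    intro b
    refine ⟨(b + 1) * M, ?_, ?_⟩
    · nlinarith
    · have hb : (0 : ℝ) < ((b + 1 : ℕ) : ℝ) := by positivity
      have h1 : b + 1 ≤ cnt A ((b + 1) * M) := by
        unfold cnt
        have h2 : ((Icc 1 (b + 1)).image (fun t => t * M)) ⊆
            (Icc 1 ((b + 1) * M)).filter (· ∈ A) := by
          intro s hs
          obtain ⟨t, ht, rfl⟩ := mem_image.1 hs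
          rw [mem_Icc] at ht
          rw [mem_filter, mem_Icc]
          refine ⟨⟨?_, Nat.mul_le_mul_right M ht.2⟩, h t ht.1⟩
          exact Nat.mul_pos ht.1 hM
        have h3 := card_le_card h2
        rw [card_image_of_injective _ (fun s t hst => Nat.eq_of_mul_eq_mul_right hM hst),
          Nat.card_Icc] at h3
        simpa using h3
      rw [div_le_div_iff₀ hM' (by push_cast; positivity)]
      have h4 : ((b + 1 : ℕ) : ℝ) ≤ (cnt A ((b + 1) * M) : ℝ) := by exact_mod_cast h1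
      push_cast at h4 ⊢
      nlinarith
  exact lt_of_lt_of_le (by positivity) (le_limsup_of_frequently_le hf hbd)

lemma tendsto_toNat : Tendsto Int.toNat atTop atTop := by
  refine tendsto_atTop.2 fun b => ?_
  filter_upwards [eventually_ge_atTop (b : ℤ)] with n hn
  omega

/-- Property A for the weighted shift. -/
theorem propA {U : Set C₀(ℤ, ℂ)} (hU : IsOpen U) (hne : U.Nonempty) :
    ∃ x, 0 < upperDensity {n : ℕ | (T ^ n) x ∈ U} := by
  obtain ⟨y, hy⟩ := hne
  obtain ⟨δ, hδ, hball⟩ := Metric.isOpen_iff.1 hU y hy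
  -- a cut-off
  obtain ⟨d, hd⟩ : ∃ d : ℕ, ∀ n : ℤ, (d : ℤ) < |n| → ‖y n‖ ≤ δ / 4 := by
    have h1 : ∀ᶠ n : ℤ in cofinite, ‖y n‖ < δ / 4 := by
      have := (c0_tendsto y).norm
      rw [norm_zero] at this
      exact this.eventually (gt_mem_nhds (by positivity))
    rw [eventually_cofinite] at h1
    obtain ⟨B, hB⟩ := (h1.image (fun n : ℤ => n.natAbs)).bddAbove
    refine ⟨B, fun n hn => ?_⟩
    by_contra hcon
    push Not at hcon
    have h2 : n.natAbs ≤ B := hB ⟨n, by simpa using hcon.le, rfl⟩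
    have h3 : (n.natAbs : ℤ) = |n| := Int.natCast_natAbs n
    omega
  obtain ⟨p, hp⟩ : ∃ p : ℕ, (1 / 2 : ℝ) ^ p * ‖y‖ ≤ δ / 4 := by
    have h1 : Tendsto (fun p : ℕ => (1 / 2 : ℝ) ^ p * ‖y‖) atTop (𝓝 (0 * ‖y‖)) :=
      (tendsto_pow_atTop_nhds_zero_of_lt_one (by norm_num) (by norm_num)).mul_const _
    rw [zero_mul] at h1
    obtain ⟨p, hp⟩ := (h1.eventually (gt_mem_nhds (show (0 : ℝ) < δ / 4 by positivity))).exists
    exact ⟨p, hp.le⟩
  set q : ℕ := d + p with hq
  have hM := Mq_ge q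
  have hMpos : 0 < Mq q := by
    have : (0 : ℤ) ≤ q := by positivity
    linarith
  -- the representative of `n` modulo the period
  set r : ℤ → ℤ := fun n => (n + d) % Mq q - d with hr
  have hr1 : ∀ n : ℤ, -(d : ℤ) ≤ r n := fun n => by
    have := Int.emod_nonneg (n + d) hMpos.ne'
    simp only [hr]; linarith
  have hr2 : ∀ n t : ℤ, r (n + t * Mq q) = r n := fun n t => by
    simp only [hr]
    have : n + t * Mq q + d = n + d + t * Mq q := by ring
    rw [this, Int.add_mul_emod_self_right]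
  have hr3 : ∀ n : ℤ, |n| ≤ (d : ℤ) → r n = n := fun n hn => by
    obtain ⟨h1, h2⟩ := abs_le.1 hn
    simp only [hr]
    rw [Int.emod_eq_of_lt (by linarith) (by push_cast [hq] at hM; linarith)]
    ring
  have hr4 : ∀ n : ℤ, ∃ j : ℤ, n = r n + j * Mq q := fun n => by
    refine ⟨(n + d) / Mq q, ?_⟩
    have := Int.emod_add_mul_ediv (n + d) (Mq q)
    simp only [hr]
    linarith
  set f : ℤ → ℂ := fun n =>
    if r n < n ∧ r n ≤ d then (2 : ℂ) ^ (a (r n) - a n) * y (r n) else 0 with hf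
  have hflim : Tendsto f cofinite (𝓝 0) := by
    rw [Int.cofinite_eq]
    refine Tendsto.sup ?_ ?_
    · refine tendsto_const_nhds.congr' ?_
      filter_upwards [eventually_le_atBot (-(d : ℤ))] with n hn
      simp only [hf]
      rw [if_neg]
      rintro ⟨h1, -⟩
      have := hr1 n
      linarith
    · have h1 : Tendsto (fun n : ℤ => (2 : ℝ) ^ d * ‖y‖ * (1 / 2 : ℝ) ^ n.toNat) atTop (𝓝 0) := by
        have := ((tendsto_pow_atTop_nhds_zero_of_lt_one (r := (1 / 2 : ℝ)) (by norm_num)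
          (by norm_num)).comp tendsto_toNat).const_mul ((2 : ℝ) ^ d * ‖y‖)
        simpa using this
      refine squeeze_zero_norm' ?_ h1
      filter_upwards [eventually_ge_atTop (0 : ℤ)] with n hn
      simp only [hf]
      split_ifs with hc
      · rw [norm_mul, norm_two_zpow]
        have h2 : |r n| ≤ d := abs_le.2 ⟨hr1 n, hc.2⟩
        have h3 : a (r n) - a n ≤ d - n := by
          rw [a_of_nonneg hn]
          have := (a_le_abs (r n)).trans h2
          linarith
        have h4 : (2 : ℝ) ^ (a (r n) - a n) ≤ 2 ^ ((d : ℤ) - n) :=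
          zpow_le_zpow_right₀ (by norm_num) h3
        have h5 : (2 : ℝ) ^ ((d : ℤ) - n) = (2 : ℝ) ^ d * (1 / 2 : ℝ) ^ n.toNat := by
          rw [zpow_sub₀ (by norm_num), zpow_natCast]
          have h6 : (2 : ℝ) ^ n = 2 ^ n.toNat := by
            rw [← zpow_natCast, Int.toNat_of_nonneg hn]
          rw [h6, one_div, inv_pow, div_eq_mul_inv]
        calc (2 : ℝ) ^ (a (r n) - a n) * ‖y (r n)‖ ≤ 2 ^ ((d : ℤ) - n) * ‖y‖ :=
              mul_le_mul h4 (c0_apply_le y _) (norm_nonneg _) (by positivity)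
          _ = (2 : ℝ) ^ d * ‖y‖ * (1 / 2 : ℝ) ^ n.toNat := by rw [h5]; ring
      · rw [norm_zero]; positivity
  refine ⟨mk f hflim, ?_⟩
  have hMnat : 0 < (4 : ℕ) ^ (q + 1) := by positivity
  refine upperDensity_pos hMnat fun t ht => ?_
  have hMcast : ((t * 4 ^ (q + 1) : ℕ) : ℤ) = t * Mq q := by
    unfold Mq; push_cast; ring
  refine hball ?_
  rw [Metric.mem_ball, dist_eq_norm]
  refine lt_of_le_of_lt (c0_norm_le (C := δ / 2) (by positivity) fun n => ?_) (half_lt_self hδ)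
  rw [ZeroAtInftyContinuousMap.sub_apply, T_pow_apply, hMcast, mk_apply]
  have hval : (2 : ℂ) ^ (a (n + t * Mq q) - a n) * f (n + t * Mq q) =
      if r n < n + t * Mq q ∧ r n ≤ d then (2 : ℂ) ^ (a (r n) - a n) * y (r n) else 0 := by
    simp only [hf]
    rw [hr2 n t]
    split_ifs with hc
    · rw [← mul_assoc, ← zpow_add₀ (by norm_num : (2 : ℂ) ≠ 0)]
      congr 2
      ring
    · rw [mul_zero]
  rw [hval]
  have ht' : (1 : ℤ) ≤ t := by exact_mod_cast ht
  by_cases hn : |n| ≤ d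
  · have h1 := hr3 n hn
    rw [if_pos, h1, sub_self, zpow_zero, one_mul, sub_self, norm_zero]
    · positivity
    · rw [h1]
      obtain ⟨h2, h3⟩ := abs_le.1 hn
      exact ⟨by nlinarith, h3⟩
  · push Not at hn
    have h1 := hd n hn
    have h2 : ‖(if r n < n + t * Mq q ∧ r n ≤ d then (2 : ℂ) ^ (a (r n) - a n) * y (r n) else 0)‖
        ≤ δ / 4 := by
      split_ifs with hc
      · rw [norm_mul, norm_two_zpow]
        have h3 : |r n| ≤ d := abs_le.2 ⟨hr1 n, hc.2⟩
        obtain ⟨j, hj⟩ := hr4 n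
        have hj0 : j ≠ 0 := by
          rintro rfl
          rw [zero_mul, add_zero] at hj
          rw [← hj] at h3
          linarith
        have h4 := a_key (d := d) (q := q) (by omega) h3 hj0
        rw [← hj] at h4
        have h5 : (2 : ℝ) ^ (a (r n) - a n) ≤ (1 / 2) ^ p := by
          calc (2 : ℝ) ^ (a (r n) - a n) ≤ 2 ^ (-(p : ℤ)) :=
                zpow_le_zpow_right₀ (by norm_num) (by push_cast [hq] at h4; linarith)
            _ = (1 / 2) ^ p := by
                rw [zpow_neg, zpow_natCast]; simp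
        calc (2 : ℝ) ^ (a (r n) - a n) * ‖y (r n)‖ ≤ (1 / 2) ^ p * ‖y‖ :=
              mul_le_mul h5 (c0_apply_le y _) (norm_nonneg _) (by positivity)
          _ ≤ δ / 4 := hp
      · rw [norm_zero]; positivity
    calc _ ≤ _ := norm_sub_le _ _
      _ ≤ δ / 4 + δ / 4 := add_le_add h2 h1
      _ = δ / 2 := by ring

end Pool.Agent.R805.PropA
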